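import Pool.Agent.Q205.Baire.Spec

/-! Limit laws of the spacings of a sequence with mean spacing one (helper250). -/

set_option autoImplicit false

namespace Pool.Agent.N250.SP

open Filter Topology Set MeasureTheory
open scoped ENNReal BoundedContinuousFunction

/-- the number of the levels `≤ T` -/
noncomputable def num (y : ℕ → ℝ) (T : ℝ) : ℕ := Set.ncard {k : ℕ | y k ≤ T}

/-- a nondecreasing sequence with mean spacing one -/
structure MeanOne (y : ℕ → ℝ) : Prop where
  mono : Monotone y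
  unb : Tendsto y atTop atTop
  count : Tendsto (fun T : ℝ => (num y T : ℝ) / T) atTop (𝓝 1)

/-- the sum of `f` over the first spacings -/
noncomputable def A (y : ℕ → ℝ) (f : ℝ → ℝ) (k : ℕ) : ℝ := ∑ j ∈ Finset.range k, f (y (j + 1) - y j)

/-- the average of `f` over the spacings -/
noncomputable def sp (y : ℕ → ℝ) (f : ℝ → ℝ) (T : ℝ) : ℝ := A y f (num y T) / T

variable {y : ℕ → ℝ}

theorem lt_num (h : MeanOne y) (T : ℝ) (k : ℕ) : k < num y T ↔ y k ≤ T := by
  let X : Pool.Agent.Q205.Baire.Spectra Unit :=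
    { x := fun k _ => y k
      cont := fun k => continuous_const
      mono := fun _ => h.mono
      unb := fun _ => h.unb }
  exact Pool.Agent.Q205.Baire.lt_count X T () k

theorem num_atTop (h : MeanOne y) : Tendsto (num y) atTop atTop := by
  rw [tendsto_atTop]
  intro n
  filter_upwards [eventually_ge_atTop (y n)] with T hT
  exact ((lt_num h T n).2 hT).le

theorem ratio (h : MeanOne y) : Tendsto (fun k : ℕ => (k : ℝ) / y k) atTop (𝓝 1) := by
  have h1 : Tendsto (fun k : ℕ => (num y (y k) : ℝ) / y k) atTop (𝓝 1) := h.count.comp h.unb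
  have h2 : Tendsto (fun k : ℕ => (num y (y k - 1) : ℝ) / (y k - 1)) atTop (𝓝 1) :=
    h.count.comp (tendsto_atTop_add_const_right _ (-1) h.unb)
  have h3 : Tendsto (fun k : ℕ => (y k - 1) / y k) atTop (𝓝 1) := by
    have h4 : Tendsto (fun k : ℕ => 1 - (y k)⁻¹) atTop (𝓝 (1 - 0)) :=
      tendsto_const_nhds.sub (tendsto_inv_atTop_zero.comp h.unb)
    rw [sub_zero] at h4
    refine h4.congr' ?_
    filter_upwards [h.unb.eventually_gt_atTop 0] with k hk
    field_simp
  have h5 : Tendsto (fun k : ℕ => (num y (y k - 1) : ℝ) / y k) atTop (𝓝 1) := by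
    have h6 := h2.mul h3
    rw [mul_one] at h6
    refine h6.congr' ?_
    filter_upwards [h.unb.eventually_gt_atTop 1] with k hk
    have : y k - 1 ≠ 0 := by linarith
    field_simp
  refine tendsto_of_tendsto_of_tendsto_of_le_of_le' h5 h1 ?_ ?_
  · filter_upwards [h.unb.eventually_gt_atTop 0] with k hk
    have : num y (y k - 1) ≤ k := by
      by_contra hcon
      have := (lt_num h (y k - 1) k).1 (not_le.1 hcon)
      linarith
    have h7 : (num y (y k - 1) : ℝ) ≤ k := by exact_mod_cast this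
    gcongr
  · filter_upwards [h.unb.eventually_gt_atTop 0] with k hk
    have : k ≤ num y (y k) := ((lt_num h (y k) k).2 le_rfl).le
    have h7 : (k : ℝ) ≤ num y (y k) := by exact_mod_cast this
    gcongr

theorem ratio' (h : MeanOne y) : Tendsto (fun k : ℕ => y k / k) atTop (𝓝 1) := by
  have := (ratio h).inv₀ one_ne_zero
  rw [inv_one] at this
  exact this.congr fun k => by rw [inv_div]

theorem A_bound {f : ℝ → ℝ} {C : ℝ} (hf : ∀ s, |f s| ≤ C) (m n : ℕ) (h : m ≤ n) :
    |A y f n - A y f m| ≤ C * (n - m) := by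
  unfold A
  rw [← Finset.sum_range_add_sum_Ico _ h, add_sub_cancel_left]
  refine (Finset.abs_sum_le_sum_abs _ _).trans ((Finset.sum_le_sum fun j _ => hf _).trans (le_of_eq ?_))
  rw [Finset.sum_const, Nat.card_Ico, nsmul_eq_mul, Nat.cast_sub h]
  ring

/-- the distribution of the first `k + 1` spacings -/
noncomputable def E (y : ℕ → ℝ) (k : ℕ) : ProbabilityMeasure ℝ :=
  ⟨((k : ℝ≥0∞) + 1)⁻¹ • ∑ j ∈ Finset.range (k + 1), Measure.dirac (y (j + 1) - y j), ⟨by
    rw [Measure.smul_apply, Measure.finsetSum_apply]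
    simp only [measure_univ, Finset.sum_const, Finset.card_range, nsmul_eq_mul, mul_one, smul_eq_mul]
    push_cast
    exact ENNReal.inv_mul_cancel (by positivity) (by
      simp)⟩⟩

theorem lint_E (g : ℝ → ℝ≥0∞) (hg : Measurable g) (k : ℕ) : ∫⁻ s, g s ∂(E y k : Measure ℝ) =
    ((k : ℝ≥0∞) + 1)⁻¹ * ∑ j ∈ Finset.range (k + 1), g (y (j + 1) - y j) := by
  show ∫⁻ s, g s ∂(((k : ℝ≥0∞) + 1)⁻¹ • ∑ j ∈ Finset.range (k + 1), Measure.dirac (y (j + 1) - y j)) = _
  rw [lintegral_smul_measure, lintegral_finsetSum_measure]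
  simp only [lintegral_dirac' _ hg, smul_eq_mul]

theorem int_E (f : ℝ → ℝ) (_hf : Continuous f) (k : ℕ) : ∫ s, f s ∂(E y k : Measure ℝ) = A y f (k + 1) / (k + 1) := by
  show ∫ s, f s ∂(((k : ℝ≥0∞) + 1)⁻¹ • ∑ j ∈ Finset.range (k + 1), Measure.dirac (y (j + 1) - y j)) = _
  rw [integral_smul_measure, integral_finsetSum_measure]
  · simp only [integral_dirac, smul_eq_mul]
    rw [ENNReal.toReal_inv, A, div_eq_inv_mul]
    congr 2
  · intro j _
    exact integrable_dirac (by simp)

theorem mean_bound (h : MeanOne y) : ∃ C : ℝ, 0 ≤ C ∧ ∀ k : ℕ, (y (k + 1) - y 0) / (k + 1) ≤ C := by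
  have h1 : Tendsto (fun k : ℕ => (y (k + 1) - y 0) / ((k + 1 : ℕ) : ℝ)) atTop (𝓝 (1 - 0)) := by
    have h2 : Tendsto (fun k : ℕ => y (k + 1) / ((k + 1 : ℕ) : ℝ)) atTop (𝓝 1) :=
      (ratio' h).comp (tendsto_add_atTop_nat 1)
    have h3 : Tendsto (fun k : ℕ => y 0 / ((k + 1 : ℕ) : ℝ)) atTop (𝓝 0) :=
      tendsto_const_nhds.div_atTop (tendsto_natCast_atTop_atTop.comp (tendsto_add_atTop_nat 1))
    refine (h2.sub h3).congr fun k => ?_
    rw [sub_div]
  obtain ⟨C, hC⟩ := h1.bddAbove_range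
  refine ⟨max C 0, le_max_right _ _, fun k => ?_⟩
  have := hC (mem_range_self k)
  push_cast at this
  exact this.trans (le_max_left _ _)

theorem compact_E (h : MeanOne y) : IsCompact (closure (range (E y))) := by
  apply isCompact_closure_of_isTightMeasureSet
  rw [isTightMeasureSet_iff_exists_isCompact_measure_compl_le]
  intro ε hε
  obtain ⟨C, hC0, hC⟩ := mean_bound h
  obtain ⟨R, hR0, hR⟩ : ∃ R : ℝ, 0 < R ∧ ENNReal.ofReal (C / R) ≤ ε := by
    by_cases hε' : ε = ∞
    · exact ⟨1, one_pos, by rw [hε']; exact le_top⟩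
    · have he : 0 < ε.toReal := ENNReal.toReal_pos hε.ne' hε'
      refine ⟨(C + 1) / ε.toReal, by positivity, ?_⟩
      rw [ENNReal.ofReal_le_iff_le_toReal hε', div_div_eq_mul_div, div_le_iff₀ (by positivity)]
      nlinarith
  refine ⟨Metric.closedBall 0 R, isCompact_closedBall _ _, ?_⟩
  rintro _ ⟨_, ⟨k, rfl⟩, rfl⟩
  have hsub : (Metric.closedBall (0 : ℝ) R)ᶜ ⊆ {s : ℝ | ENNReal.ofReal R ≤ ENNReal.ofReal |s|} := by
    intro s hs
    rw [mem_compl_iff, mem_closedBall_zero_iff, not_le, Real.norm_eq_abs] at hs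
    exact ENNReal.ofReal_le_ofReal hs.le
  have hm : Measurable fun s : ℝ => ENNReal.ofReal |s| := by fun_prop
  have h1 := mul_meas_ge_le_lintegral (μ := (E y k : Measure ℝ)) hm (ENNReal.ofReal R)
  rw [lint_E _ hm] at h1
  have h2 : ∑ j ∈ Finset.range (k + 1), ENNReal.ofReal |y (j + 1) - y j| = ENNReal.ofReal (y (k + 1) - y 0) := by
    rw [← Finset.sum_range_sub y (k + 1), ENNReal.ofReal_sum_of_nonneg]
    · refine Finset.sum_congr rfl fun j _ => ?_
      rw [abs_of_nonneg (sub_nonneg.2 (h.mono (Nat.le_succ j)))]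
    · intro j _
      exact sub_nonneg.2 (h.mono (Nat.le_succ j))
  rw [h2] at h1
  have h3 : ((k : ℝ≥0∞) + 1)⁻¹ * ENNReal.ofReal (y (k + 1) - y 0) = ENNReal.ofReal ((y (k + 1) - y 0) / (k + 1)) := by
    rw [ENNReal.ofReal_div_of_pos (by positivity), ENNReal.div_eq_inv_mul]
    congr 2
    rw [ENNReal.ofReal_add (by positivity) one_pos.le]
    simp
  rw [h3] at h1
  have h4 : (E y k : Measure ℝ) (Metric.closedBall (0 : ℝ) R)ᶜ ≤ ENNReal.ofReal (C / R) := by
    rw [ENNReal.ofReal_div_of_pos hR0, ENNReal.le_div_iff_mul_le (by left; simpa using hR0) (by left; simp), mul_comm]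
    exact (mul_le_mul_right (measure_mono hsub) _).trans (h1.trans (ENNReal.ofReal_le_ofReal (hC k)))
  exact h4.trans hR

/-- `ν` is a limit point of the distributions of the spacings -/
def IsLaw (y : ℕ → ℝ) (ν : Measure ℝ) : Prop :=
  IsProbabilityMeasure ν ∧ ∃ T : ℕ → ℝ, Tendsto T atTop atTop ∧ ∀ f : ℝ → ℝ, Continuous f → (∃ C, ∀ s, |f s| ≤ C) →
    Tendsto (fun n => sp y f (T n)) atTop (𝓝 (∫ s, f s ∂ν))

/-- compactness -/
theorem exists_law (h : MeanOne y) {T : ℕ → ℝ} (hT : Tendsto T atTop atTop) :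
    ∃ (ν : Measure ℝ) (θ : ℕ → ℕ), IsProbabilityMeasure ν ∧ StrictMono θ ∧
      ∀ f : ℝ → ℝ, Continuous f → (∃ C, ∀ s, |f s| ≤ C) →
        Tendsto (fun n => sp y f (T (θ n))) atTop (𝓝 (∫ s, f s ∂ν)) := by
  obtain ⟨ν, -, θ, hθ, hν⟩ := (compact_E h).isSeqCompact
    (x := fun n => E y (num y (T n) - 1)) (fun n => subset_closure (mem_range_self _))
  refine ⟨ν, θ, inferInstance, hθ, fun f hf ⟨C, hC⟩ => ?_⟩
  rw [ProbabilityMeasure.tendsto_iff_forall_integral_tendsto] at hν
  have h1 := hν (BoundedContinuousFunction.ofNormedAddCommGroup f hf C hC)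
  simp only [BoundedContinuousFunction.coe_ofNormedAddCommGroup, Function.comp, int_E f hf] at h1
  have hTθ : Tendsto (fun n => T (θ n)) atTop atTop := hT.comp hθ.tendsto_atTop
  have h2 := (h.count.comp hTθ).mul h1
  rw [one_mul] at h2
  refine h2.congr' ?_
  have h3 := (num_atTop h).comp hTθ
  filter_upwards [h3.eventually_ge_atTop 1] with n hn
  simp only [Function.comp] at hn ⊢
  have h4 : ((num y (T (θ n)) - 1 : ℕ) : ℝ) + 1 = num y (T (θ n)) := by
    rw [Nat.cast_sub hn]
    simp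
  have h5 : num y (T (θ n)) - 1 + 1 = num y (T (θ n)) := Nat.sub_add_cancel hn
  rw [h4, h5, sp]
  have h6 : (num y (T (θ n)) : ℝ) ≠ 0 := by
    have : (1 : ℝ) ≤ num y (T (θ n)) := by exact_mod_cast hn
    linarith
  field_simp

/-- subsequences of the number of levels instead of the height -/
theorem sp_sub (h : MeanOne y) {f : ℝ → ℝ} {C : ℝ} (hC : ∀ s, |f s| ≤ C) :
    Tendsto (fun k : ℕ => sp y f (y k) - A y f k / k) atTop (𝓝 0) := by
  have hC0 : 0 ≤ C := (abs_nonneg _).trans (hC 0)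
  have h1 : Tendsto (fun k : ℕ => C * |(k : ℝ) / y k - 1| + C * |(num y (y k) : ℝ) / y k - (k : ℝ) / y k|)
      atTop (𝓝 (C * |(1 : ℝ) - 1| + C * |(1 : ℝ) - 1|)) :=
    (((ratio h).sub tendsto_const_nhds).abs.const_mul C).add
      ((((h.count.comp h.unb).sub (ratio h)).abs).const_mul C)
  simp only [sub_self, abs_zero, mul_zero, add_zero] at h1
  refine squeeze_zero_norm' ?_ h1
  filter_upwards [h.unb.eventually_gt_atTop 0, eventually_ge_atTop 1] with k hk hk1
  have hk0 : (0 : ℝ) < k := by exact_mod_cast hk1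
  have h2 : k ≤ num y (y k) := ((lt_num h (y k) k).2 le_rfl).le
  have h3 := A_bound (y := y) hC k (num y (y k)) h2
  have h4 := A_bound (y := y) hC 0 k (Nat.zero_le k)
  have h5 : A y f 0 = 0 := by simp [A]
  rw [h5, sub_zero, Nat.cast_zero, sub_zero] at h4
  rw [Real.norm_eq_abs]
  have e1 : sp y f (y k) - A y f k / k =
      A y f k / k * ((k : ℝ) / y k - 1) + (A y f (num y (y k)) - A y f k) / y k := by
    unfold sp
    field_simp
    ring
  rw [e1]
  refine (abs_add_le _ _).trans (add_le_add ?_ ?_)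
  · rw [abs_mul]
    apply mul_le_mul_of_nonneg_right _ (abs_nonneg _)
    rw [abs_div, abs_of_pos hk0, div_le_iff₀ hk0]
    exact h4
  · rw [abs_div, abs_of_pos hk, ← sub_div, abs_div, abs_of_pos hk, ← mul_div_assoc]
    have h6 : |(num y (y k) : ℝ) - k| = (num y (y k) : ℝ) - k := by
      apply abs_of_nonneg
      have : (k : ℝ) ≤ num y (y k) := by exact_mod_cast h2
      linarith
    rw [h6]
    gcongr

/-- the intermediate value property -/
theorem ivt (h : MeanOne y) {f : ℝ → ℝ} (hf : Continuous f) {C : ℝ} (hC : ∀ s, |f s| ≤ C) {c : ℝ}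
    (h1 : ∃ᶠ T in atTop, sp y f T < c) (h2 : ∃ᶠ T in atTop, c < sp y f T) :
    ∃ ν, IsLaw y ν ∧ ∫ s, f s ∂ν = c := by
  have hC0 : 0 ≤ C := (abs_nonneg _).trans (hC 0)
  -- heights where the average is close to `c`
  have key : ∀ n : ℕ, ∃ T : ℝ, (n : ℝ) ≤ T ∧ |sp y f T - c| ≤ 1 / ((n : ℝ) + 1) := by
    intro n
    -- averages over k
    have h3 : Tendsto (fun T : ℝ => sp y f T - A y f (num y T) / num y T) atTop (𝓝 0) := by
      have h4 : Tendsto (fun T : ℝ => C * |(num y T : ℝ) / T - 1|) atTop (𝓝 (C * |(1 : ℝ) - 1|)) :=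
        ((h.count.sub tendsto_const_nhds).abs).const_mul C
      simp only [sub_self, abs_zero, mul_zero] at h4
      refine squeeze_zero_norm' ?_ h4
      filter_upwards [eventually_gt_atTop (0 : ℝ), (num_atTop h).eventually_ge_atTop 1] with T hT hk
      have hk0 : (0 : ℝ) < num y T := by exact_mod_cast hk
      have h5 := A_bound (y := y) hC 0 (num y T) (Nat.zero_le _)
      have h6 : A y f 0 = 0 := by simp [A]
      rw [h6, sub_zero, Nat.cast_zero, sub_zero] at h5
      have e1 : sp y f T - A y f (num y T) / num y T = A y f (num y T) / num y T * ((num y T : ℝ) / T - 1) := by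
        unfold sp
        field_simp
      rw [e1, Real.norm_eq_abs, abs_mul]
      apply mul_le_mul_of_nonneg_right _ (abs_nonneg _)
      rw [abs_div, abs_of_pos hk0, div_le_iff₀ hk0]
      exact h5
    set δ : ℝ := 1 / (2 * ((n : ℝ) + 1)) with hδ
    have hδ0 : 0 < δ := by positivity
    have hδ2 : δ + δ = 1 / ((n : ℝ) + 1) := by
      rw [hδ]
      field_simp
      norm_num
    have h4 : ∀ᶠ T in atTop, |sp y f T - A y f (num y T) / num y T| < δ := by
      have := (Metric.tendsto_nhds.1 h3) δ hδ0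
      simpa [Real.dist_eq] using this
    -- k large: the comparison at the heights `y k`, jumps small, `y k ≥ n`
    have h5 : ∀ᶠ k : ℕ in atTop, |sp y f (y k) - A y f k / k| < δ := by
      have := (Metric.tendsto_nhds.1 (sp_sub h hC)) δ hδ0
      simpa [Real.dist_eq] using this
    have h6 : ∀ᶠ k : ℕ in atTop, (n : ℝ) ≤ y k := h.unb.eventually_ge_atTop _
    have h7 : ∀ᶠ k : ℕ in atTop, 2 * C / k < δ := by
      have : Tendsto (fun k : ℕ => 2 * C / (k : ℝ)) atTop (𝓝 0) :=
        tendsto_const_nhds.div_atTop tendsto_natCast_atTop_atTop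
      exact this.eventually (gt_mem_nhds hδ0)
    obtain ⟨K, hK⟩ := eventually_atTop.1 (h5.and (h6.and h7))
    -- low and high averages
    by_cases hlow : ∃ k : ℕ, K + 1 ≤ k ∧ |A y f k / k - c| < δ
    · obtain ⟨k, hk, hkc⟩ := hlow
      obtain ⟨g1, g2, g3⟩ := hK k (by omega)
      refine ⟨y k, g2, ?_⟩
      rw [← hδ2]
      rw [abs_lt] at hkc g1
      rw [abs_le]
      constructor <;> linarith [hkc.1, hkc.2, g1.1, g1.2]
    · push Not at hlow
      exfalso
      -- find T1 with average below, T2 with average above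
      have hev : ∀ᶠ T in atTop, K + 1 ≤ num y T := (num_atTop h).eventually_ge_atTop _
      obtain ⟨T1, hT1, hT1a, hT1b⟩ := (h1.and_eventually (h4.and hev)).exists
      have hk1 : A y f (num y T1) / num y T1 < c := by
        rcases lt_or_ge (A y f (num y T1) / num y T1) c with hh | hh
        · exact hh
        · have := hlow (num y T1) hT1b
          rw [abs_of_nonneg (by linarith)] at this
          rw [abs_lt] at hT1a
          linarith [hT1a.1]
      obtain ⟨T2, hT2, hT2a, hT2b⟩ :=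
        (h2.and_eventually (h4.and ((num_atTop h).eventually_ge_atTop (num y T1 + 1)))).exists
      have hk2 : c < A y f (num y T2) / num y T2 := by
        rcases lt_or_ge c (A y f (num y T2) / num y T2) with hh | hh
        · exact hh
        · have := hlow (num y T2) (by omega)
          rw [abs_of_nonpos (by linarith)] at this
          rw [abs_lt] at hT2a
          linarith [hT2a.2]
      -- first index where the average is ≥ c
      have hex : ∃ k, num y T1 ≤ k ∧ c ≤ A y f k / k := ⟨num y T2, by omega, hk2.le⟩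
      classical
      obtain ⟨k, ⟨p1, p2⟩, hmin⟩ : ∃ k, (num y T1 ≤ k ∧ c ≤ A y f k / k) ∧
          ∀ m < k, ¬ (num y T1 ≤ m ∧ c ≤ A y f m / m) :=
        ⟨Nat.find hex, Nat.find_spec hex, fun m hm => Nat.find_min hex hm⟩
      have hkne : k ≠ num y T1 := by
        intro he
        rw [he] at p2
        linarith
      have hkgt : num y T1 < k := lt_of_le_of_ne p1 hkne.symm
      obtain ⟨j, rfl⟩ : ∃ j, k = j + 1 := ⟨k - 1, by omega⟩
      have hj := hmin j (by omega)
      push Not at hj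
      have hj1 := hj (by omega)
      have hjK : K + 1 ≤ j := by omega
      have hj0 : (0 : ℝ) < j := by
        have : (1 : ℝ) ≤ j := by exact_mod_cast (by omega : 1 ≤ j)
        linarith
      have g := hlow (j + 1) (by omega)
      have g' := hlow j hjK
      rw [abs_of_nonneg (by linarith)] at g
      rw [abs_of_neg (by linarith)] at g'
      obtain ⟨-, -, g3⟩ := hK j (by omega)
      -- the jump
      have hA := A_bound (y := y) hC j (j + 1) (Nat.le_succ j)
      have hA0 := A_bound (y := y) hC 0 j (Nat.zero_le _)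
      have h60 : A y f 0 = 0 := by simp [A]
      rw [h60, sub_zero, Nat.cast_zero, sub_zero] at hA0
      push_cast at hA g p2
      have e2 : A y f (j + 1) / ((j : ℝ) + 1) - A y f j / j =
          (A y f (j + 1) - A y f j) / ((j : ℝ) + 1) - A y f j / j * (1 / ((j : ℝ) + 1)) := by
        field_simp
        ring
      have e3 : |A y f (j + 1) / ((j : ℝ) + 1) - A y f j / j| ≤ 2 * C / j := by
        rw [e2]
        have q1 : |(A y f (j + 1) - A y f j) / ((j : ℝ) + 1)| ≤ C / j := by
          rw [abs_div, abs_of_pos (by linarith : (0 : ℝ) < (j : ℝ) + 1)]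
          have : C * ((j : ℝ) + 1 - j) = C := by ring
          rw [this] at hA
          exact div_le_div₀ hC0 hA hj0 (by linarith)
        have q2 : |A y f j / j * (1 / ((j : ℝ) + 1))| ≤ C / j := by
          rw [abs_mul, abs_div, abs_of_pos hj0, abs_of_pos (by positivity : (0 : ℝ) < 1 / ((j : ℝ) + 1))]
          have q3 : |A y f j| / j ≤ C := by
            rw [div_le_iff₀ hj0]
            exact hA0
          calc |A y f j| / j * (1 / ((j : ℝ) + 1)) ≤ C * (1 / ((j : ℝ) + 1)) := by gcongr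
            _ ≤ C * (1 / j) := by gcongr; linarith
            _ = C / j := by ring
        calc _ ≤ |(A y f (j + 1) - A y f j) / ((j : ℝ) + 1)| + |A y f j / j * (1 / ((j : ℝ) + 1))| := abs_sub _ _
          _ ≤ C / j + C / j := add_le_add q1 q2
          _ = 2 * C / j := by ring
      rw [abs_le] at e3
      linarith [e3.1, e3.2]
  choose T hTn hTc using key
  have hT : Tendsto T atTop atTop := tendsto_atTop_mono hTn tendsto_natCast_atTop_atTop
  obtain ⟨ν, θ, hν, hθ, hlim⟩ := exists_law h hT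
  refine ⟨ν, ⟨hν, fun n => T (θ n), hT.comp hθ.tendsto_atTop, hlim⟩, ?_⟩
  have h8 := hlim f hf ⟨C, hC⟩
  have h9 : Tendsto (fun n => sp y f (T (θ n))) atTop (𝓝 c) := by
    have h10 : Tendsto (fun n => sp y f (T n)) atTop (𝓝 c) := by
      rw [tendsto_iff_norm_sub_tendsto_zero]
      refine squeeze_zero (fun n => norm_nonneg _) (fun n => ?_) (tendsto_one_div_add_atTop_nhds_zero_nat (𝕜 := ℝ))
      rw [Real.norm_eq_abs]
      exact hTc n
    exact h10.comp hθ.tendsto_atTop
  exact tendsto_nhds_unique h8 h9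

/-- a value between the integrals of two limit laws is the integral of a limit law -/
theorem law_between (h : MeanOne y) {f : ℝ → ℝ} (hf : Continuous f) {C : ℝ} (hC : ∀ s, |f s| ≤ C) {ν₀ ν₁ : Measure ℝ}
    (h0 : IsLaw y ν₀) (h1 : IsLaw y ν₁) {c : ℝ} (hc0 : ∫ s, f s ∂ν₀ ≤ c) (hc1 : c ≤ ∫ s, f s ∂ν₁) :
    ∃ ν, IsLaw y ν ∧ ∫ s, f s ∂ν = c := by
  rcases hc0.eq_or_lt with e | hlt0
  · exact ⟨ν₀, h0, e⟩
  rcases hc1.eq_or_lt with e | hlt1
  · exact ⟨ν₁, h1, e.symm⟩
  obtain ⟨-, T0, hT0, hl0⟩ := h0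
  obtain ⟨-, T1, hT1, hl1⟩ := h1
  refine ivt h hf hC ?_ ?_
  · have h2 : ∀ᶠ n in atTop, sp y f (T0 n) < c := (hl0 f hf ⟨C, hC⟩).eventually (gt_mem_nhds hlt0)
    exact hT0.frequently h2.frequently
  · have h2 : ∀ᶠ n in atTop, c < sp y f (T1 n) := (hl1 f hf ⟨C, hC⟩).eventually (lt_mem_nhds hlt1)
    exact hT1.frequently h2.frequently

/-- limit laws from an inequality for arbitrarily large `T` -/
theorem law_le (h : MeanOne y) {f : ℝ → ℝ} (hf : Continuous f) {C : ℝ} (hC : ∀ s, |f s| ≤ C) {c : ℝ}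
    (h1 : ∃ᶠ T in atTop, sp y f T < c) : ∃ ν, IsLaw y ν ∧ ∫ s, f s ∂ν ≤ c := by
  have key : ∀ n : ℕ, ∃ T : ℝ, (n : ℝ) ≤ T ∧ sp y f T < c := by
    intro n
    obtain ⟨T, hT, hp⟩ := (frequently_atTop.1 h1) n
    exact ⟨T, hT, hp⟩
  choose T hTn hTc using key
  have hT : Tendsto T atTop atTop := tendsto_atTop_mono hTn tendsto_natCast_atTop_atTop
  obtain ⟨ν, θ, hν, hθ, hlim⟩ := exists_law h hT
  refine ⟨ν, ⟨hν, fun n => T (θ n), hT.comp hθ.tendsto_atTop, hlim⟩, ?_⟩
  exact le_of_tendsto (hlim f hf ⟨C, hC⟩) (Eventually.of_forall fun n => (hTc _).le)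

theorem law_ge (h : MeanOne y) {f : ℝ → ℝ} (hf : Continuous f) {C : ℝ} (hC : ∀ s, |f s| ≤ C) {c : ℝ}
    (h1 : ∃ᶠ T in atTop, c < sp y f T) : ∃ ν, IsLaw y ν ∧ c ≤ ∫ s, f s ∂ν := by
  have key : ∀ n : ℕ, ∃ T : ℝ, (n : ℝ) ≤ T ∧ c < sp y f T := by
    intro n
    obtain ⟨T, hT, hp⟩ := (frequently_atTop.1 h1) n
    exact ⟨T, hT, hp⟩
  choose T hTn hTc using key
  have hT : Tendsto T atTop atTop := tendsto_atTop_mono hTn tendsto_natCast_atTop_atTop
  obtain ⟨ν, θ, hν, hθ, hlim⟩ := exists_law h hT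
  refine ⟨ν, ⟨hν, fun n => T (θ n), hT.comp hθ.tendsto_atTop, hlim⟩, ?_⟩
  exact ge_of_tendsto (hlim f hf ⟨C, hC⟩) (Eventually.of_forall fun n => (hTc _).le)

/-- the countable family of test functions -/
noncomputable def tst (p : ℚ × ℕ) (s : ℝ) : ℝ := max 0 (min 1 ((p.2 : ℝ) * ((p.1 : ℝ) - s)))

theorem tst_cont (p : ℚ × ℕ) : Continuous (tst p) := by
  unfold tst
  fun_prop

theorem tst_nonneg (p : ℚ × ℕ) (s : ℝ) : 0 ≤ tst p s := le_max_left _ _

theorem tst_le (p : ℚ × ℕ) (s : ℝ) : tst p s ≤ 1 := max_le zero_le_one (min_le_left _ _)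

theorem tst_abs (p : ℚ × ℕ) (s : ℝ) : |tst p s| ≤ 1 := by
  rw [abs_of_nonneg (tst_nonneg p s)]
  exact tst_le p s

theorem ext_tst {ν₀ ν₁ : Measure ℝ} [IsProbabilityMeasure ν₀] [IsProbabilityMeasure ν₁]
    (h : ∀ p, ∫ s, tst p s ∂ν₀ = ∫ s, tst p s ∂ν₁) : ν₀ = ν₁ := by
  have hlim : ∀ (ν : Measure ℝ) [IsProbabilityMeasure ν] (q : ℚ),
      Tendsto (fun n : ℕ => ∫ s, tst (q, n) s ∂ν) atTop (𝓝 (ν.real (Iio (q : ℝ)))) := by
    intro ν _ q
    have h1 : Tendsto (fun n : ℕ => ∫ s, tst (q, n) s ∂ν) atTop (𝓝 (∫ s, (Iio (q : ℝ)).indicator (fun _ => (1 : ℝ)) s ∂ν)) := by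
      apply tendsto_integral_of_dominated_convergence (fun _ => (1 : ℝ))
      · intro n
        exact (tst_cont _).aestronglyMeasurable
      · exact integrable_const _
      · intro n
        refine ae_of_all _ fun s => ?_
        rw [Real.norm_eq_abs]
        exact tst_abs _ s
      · refine ae_of_all _ fun s => ?_
        by_cases hs : s < q
        · rw [indicator_of_mem (by exact hs)]
          obtain ⟨N, hN⟩ := exists_nat_gt (1 / ((q : ℝ) - s))
          apply tendsto_const_nhds.congr'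
          filter_upwards [eventually_ge_atTop N] with n hn
          have h2 : 0 < (q : ℝ) - s := by linarith
          have h3 : 1 ≤ (n : ℝ) * ((q : ℝ) - s) := by
            have h4 : (N : ℝ) ≤ n := by exact_mod_cast hn
            rw [div_lt_iff₀ h2] at hN
            nlinarith
          unfold tst
          simp only
          rw [min_eq_left h3, max_eq_right zero_le_one]
        · rw [indicator_of_notMem (by exact hs)]
          apply tendsto_const_nhds.congr
          intro n
          unfold tst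
          simp only
          have h4 : (n : ℝ) * ((q : ℝ) - s) ≤ 0 := mul_nonpos_of_nonneg_of_nonpos (Nat.cast_nonneg n) (by linarith [not_lt.1 hs])
          rw [max_eq_left ((min_le_right _ _).trans h4)]
    rw [integral_indicator_const _ measurableSet_Iio, smul_eq_mul, mul_one] at h1
    exact h1
  refine ext_of_generate_finite _ (BorelSpace.measurable_eq.trans Real.borel_eq_generateFrom_Iio_rat)
    Real.isPiSystem_Iio_rat ?_ (by simp)
  intro s hs
  simp only [mem_iUnion, mem_singleton_iff] at hs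
  obtain ⟨q, rfl⟩ := hs
  have h2 := hlim ν₀ q
  have h3 := hlim ν₁ q
  simp only [h] at h2
  have h4 := tendsto_nhds_unique h2 h3
  exact (measureReal_eq_measureReal_iff).1 h4

/-- a unique limit law: convergence -/
theorem converge (h : MeanOne y) {ν : Measure ℝ} (hν : ∀ ν', IsLaw y ν' → ν' = ν) {f : ℝ → ℝ} (hf : Continuous f)
    (hC : ∃ C, ∀ s, |f s| ≤ C) : Tendsto (fun T => sp y f T) atTop (𝓝 (∫ s, f s ∂ν)) := by
  apply tendsto_of_subseq_tendsto
  intro T hT
  obtain ⟨ν', θ, hν', hθ, hlim⟩ := exists_law h hT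
  have e := hν ν' ⟨hν', fun n => T (θ n), hT.comp hθ.tendsto_atTop, hlim⟩
  rw [e] at hlim
  exact ⟨θ, hlim f hf hC⟩

/-- the limit laws live on `[0, ∞)` -/
theorem law_neg (h : MeanOne y) {ν : Measure ℝ} (hν : IsLaw y ν) : ν (Iio 0) = 0 := by
  obtain ⟨hp, T, hT, hlim⟩ := hν
  have hf : Continuous fun s : ℝ => max 0 (min 1 (-s)) := by fun_prop
  have h1 := hlim _ hf ⟨1, fun s => by
    rw [abs_of_nonneg (le_max_left _ _)]
    exact max_le zero_le_one (min_le_left _ _)⟩
  have h2 : ∀ t : ℝ, sp y (fun s : ℝ => max 0 (min 1 (-s))) t = 0 := by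
    intro t
    unfold sp A
    rw [Finset.sum_eq_zero, zero_div]
    intro j _
    apply max_eq_left
    have : 0 ≤ y (j + 1) - y j := sub_nonneg.2 (h.mono (Nat.le_succ j))
    exact (min_le_right _ _).trans (by linarith)
  simp only [h2] at h1
  have h3 : ∫ s, max 0 (min 1 (-s)) ∂ν = 0 := tendsto_nhds_unique h1 tendsto_const_nhds |>.symm ▸ rfl
  have hint : Integrable (fun s : ℝ => max 0 (min 1 (-s))) ν := by
    refine Integrable.mono' (integrable_const (1 : ℝ)) hf.aestronglyMeasurable (ae_of_all _ fun s => ?_)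
    rw [Real.norm_eq_abs, abs_of_nonneg (le_max_left _ _)]
    exact max_le zero_le_one (min_le_left _ _)
  have h4 := (integral_eq_zero_iff_of_nonneg (f := fun s : ℝ => max 0 (min 1 (-s)))
    (fun s => le_max_left _ _) hint).1 h3
  refine measure_mono_null (fun s hs => ?_) h4
  rw [mem_compl_iff]
  intro hcon
  have : max 0 (min 1 (-s)) = 0 := hcon
  have hs' : s < 0 := hs
  have : 0 < max 0 (min 1 (-s)) := lt_max_of_lt_right (lt_min one_pos (by linarith))
  linarith

/-- the mean of a limit law is at most one -/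
theorem law_mean (h : MeanOne y) {ν : Measure ℝ} (hν : IsLaw y ν) : ∫⁻ s, ENNReal.ofReal s ∂ν ≤ 1 := by
  obtain ⟨hp, T, hT, hlim⟩ := hν
  have hmean : Tendsto (fun t : ℝ => (y (num y t) - y 0) / t) atTop (𝓝 1) := by
    have h1 : Tendsto (fun t : ℝ => y (num y t) / (num y t : ℝ)) atTop (𝓝 1) := (ratio' h).comp (num_atTop h)
    have h2 := h1.mul h.count
    rw [one_mul] at h2
    have h3 : Tendsto (fun t : ℝ => y 0 / t) atTop (𝓝 0) := tendsto_const_nhds.div_atTop tendsto_id
    have h4 := h2.sub h3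
    rw [sub_zero] at h4
    refine h4.congr' ?_
    filter_upwards [eventually_gt_atTop (0 : ℝ), (num_atTop h).eventually_ge_atTop 1] with t ht hk
    have hk0 : (num y t : ℝ) ≠ 0 := by
      have : (1 : ℝ) ≤ num y t := by exact_mod_cast hk
      linarith
    field_simp
  have key : ∀ n : ℕ, ∫ s, max 0 (min (n : ℝ) s) ∂ν ≤ 1 := by
    intro n
    have hf : Continuous fun s : ℝ => max 0 (min (n : ℝ) s) := by fun_prop
    have h1 := hlim _ hf ⟨n, fun s => by
      rw [abs_of_nonneg (le_max_left _ _)]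
      exact max_le (Nat.cast_nonneg n) (min_le_left _ _)⟩
    refine le_of_tendsto_of_tendsto h1 (hmean.comp hT) ?_
    filter_upwards [hT.eventually_gt_atTop 0] with m hm
    simp only [Function.comp, sp]
    apply div_le_div_of_nonneg_right _ hm.le
    rw [← Finset.sum_range_sub y]
    apply Finset.sum_le_sum
    intro j _
    have : 0 ≤ y (j + 1) - y j := sub_nonneg.2 (h.mono (Nat.le_succ j))
    exact max_le this (min_le_right _ _)
  have h5 : ∫⁻ s, ENNReal.ofReal s ∂ν = ⨆ n : ℕ, ∫⁻ s, ENNReal.ofReal (max 0 (min (n : ℝ) s)) ∂ν := by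
    rw [← lintegral_iSup]
    · congr 1
      ext s
      apply le_antisymm
      · obtain ⟨n, hn⟩ := exists_nat_ge s
        refine le_trans ?_ (le_iSup _ n)
        apply ENNReal.ofReal_le_ofReal
        rw [min_eq_right hn]
        exact le_max_right _ _
      · refine iSup_le fun n => ?_
        rcases le_total 0 s with hs | hs
        · apply ENNReal.ofReal_le_ofReal
          exact max_le hs (min_le_right _ _)
        · rw [max_eq_left ((min_le_right _ _).trans hs)]
          simp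
    · intro n
      fun_prop
    · intro m n hmn s
      apply ENNReal.ofReal_le_ofReal
      have : (m : ℝ) ≤ n := by exact_mod_cast hmn
      exact max_le_max le_rfl (min_le_min this le_rfl)
  rw [h5]
  refine iSup_le fun n => ?_
  have hint : Integrable (fun s : ℝ => max 0 (min (n : ℝ) s)) ν := by
    refine Integrable.mono' (integrable_const (n : ℝ)) (by fun_prop) (ae_of_all _ fun s => ?_)
    rw [Real.norm_eq_abs, abs_of_nonneg (le_max_left _ _)]
    exact max_le (Nat.cast_nonneg n) (min_le_left _ _)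
  rw [← ofReal_integral_eq_lintegral_ofReal hint (ae_of_all _ fun s => le_max_left _ _)]
  rw [ENNReal.ofReal_le_one]
  exact key n

/-- two different limit laws: uncountably many -/
theorem uncountable (h : MeanOne y) {ν₀ ν₁ : Measure ℝ} (h0 : IsLaw y ν₀) (h1 : IsLaw y ν₁) (hne : ν₀ ≠ ν₁) :
    ¬ {ν | IsLaw y ν}.Countable := by
  intro hc
  haveI := h0.1
  haveI := h1.1
  obtain ⟨p, hp⟩ : ∃ p, ∫ s, tst p s ∂ν₀ ≠ ∫ s, tst p s ∂ν₁ := by
    by_contra hcon
    push Not at hcon
    exact hne (ext_tst hcon)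
  have hc2 := hc.image (fun ν => ∫ s, tst p s ∂ν)
  rcases lt_or_gt_of_ne hp with hlt | hlt
  · have hsub : Ioo (∫ s, tst p s ∂ν₀) (∫ s, tst p s ∂ν₁) ⊆ (fun ν => ∫ s, tst p s ∂ν) '' {ν | IsLaw y ν} := by
      intro c hc'
      obtain ⟨ν, hν, he⟩ := law_between h (tst_cont p) (tst_abs p) h0 h1 hc'.1.le hc'.2.le
      exact ⟨ν, hν, he⟩
    have h3 := Cardinal.Real.Ioo_countable_iff.1 (hc2.mono hsub)
    linarith
  · have hsub : Ioo (∫ s, tst p s ∂ν₁) (∫ s, tst p s ∂ν₀) ⊆ (fun ν => ∫ s, tst p s ∂ν) '' {ν | IsLaw y ν} := by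
      intro c hc'
      obtain ⟨ν, hν, he⟩ := law_between h (tst_cont p) (tst_abs p) h1 h0 hc'.1.le hc'.2.le
      exact ⟨ν, hν, he⟩
    have h3 := Cardinal.Real.Ioo_countable_iff.1 (hc2.mono hsub)
    linarith

end Pool.Agent.N250.SP
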