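import Pool.Agent.Q205.Baire.Spec

/-! Baire category: generic convergence and generic oscillation (helper250). -/

set_option autoImplicit false

namespace Pool.Agent.N250.SP

open Filter Topology Set MeasureTheory
open Pool.Agent.Q205.Baire (Nice Spectra LocalStat S count lt_count nice_S isClosed_F)

variable {M : Type*} [TopologicalSpace M]

/-- `B` takes values below `c` and above `c'` for arbitrarily large `T` -/
def Osc (B : ℝ → ℝ) (c c' : ℝ) : Prop := (∃ᶠ T in atTop, B T < c) ∧ ∃ᶠ T in atTop, c' < B T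

/-- a strict inequality at `g`, `T` persists near `g` for some slightly larger `T'` -/
theorem nice_open {B : ℝ → M → ℝ} (hB : Nice B) {W : Set ℝ} (hW : IsOpen W) {T0 : ℝ} (hT0 : 0 < T0) :
    IsOpen {g | ∃ T, T0 ≤ T ∧ B T g ∈ W} := by
  rw [isOpen_iff_mem_nhds]
  rintro g ⟨T, hT, hw⟩
  have hTpos : 0 < T := lt_of_lt_of_le hT0 hT
  have h2 : ∀ᶠ S in 𝓝[≥] T, B S g ∈ W := (hB.right g T hTpos).eventually (hW.mem_nhds hw)
  rw [eventually_iff, mem_nhdsGE_iff_exists_Ico_subset] at h2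
  obtain ⟨u, hu, hsub⟩ := h2
  obtain ⟨T', hT1, hT2, hc⟩ := hB.cont g T hTpos (u - T) (sub_pos.2 hu)
  have h3 : B T' g ∈ W := hsub ⟨hT1, by linarith⟩
  have h5 : ∀ᶠ g' in 𝓝 g, B T' g' ∈ W := hc.eventually (hW.mem_nhds h3)
  filter_upwards [h5] with g' hg'
  exact ⟨T', hT.trans hT1, hg'⟩

theorem freq_iff {p : ℝ → Prop} : (∃ᶠ T in atTop, p T) ↔ ∀ n : ℕ, ∃ T : ℝ, (n : ℝ) + 1 ≤ T ∧ p T := by
  rw [frequently_atTop]
  constructor
  · intro h n
    obtain ⟨T, hT, hp⟩ := h ((n : ℝ) + 1)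
    exact ⟨T, hT, hp⟩
  · intro h a
    obtain ⟨n, hn⟩ := exists_nat_ge a
    obtain ⟨T, hT, hp⟩ := h n
    exact ⟨T, by linarith, hp⟩

/-- the set of the oscillating parameters is a countable intersection of open sets -/
theorem osc_eq (B : ℝ → M → ℝ) (c c' : ℝ) : {g | Osc (fun T => B T g) c c'} =
    ⋂ n : ℕ, ({g | ∃ T, ((n : ℝ) + 1) ≤ T ∧ B T g ∈ Iio c} ∩ {g | ∃ T, ((n : ℝ) + 1) ≤ T ∧ B T g ∈ Ioi c'}) := by
  ext g
  simp only [Osc, freq_iff, mem_ofPred_eq, mem_iInter, mem_inter_iff, mem_Iio, mem_Ioi]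
  constructor
  · rintro ⟨h1, h2⟩ n
    exact ⟨h1 n, h2 n⟩
  · intro h
    exact ⟨fun n => (h n).1, fun n => (h n).2⟩

/-- a countable intersection of open sets is generic in the interior of its closure -/
theorem generic_of_gdelta {ι : Type} [Countable ι] (W : ι → Set M) (hW : ∀ i, IsOpen (W i)) :
    ∀ᶠ g in residual M, g ∈ interior (closure (⋂ i, W i)) → ∀ i, g ∈ W i := by
  have key : ∀ i, ∀ᶠ g in residual M, g ∈ interior (closure (⋂ i, W i)) → g ∈ W i := by
    intro i
    set V := interior (closure (⋂ i, W i)) with hV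
    have ho : IsOpen (W i ∪ (closure V)ᶜ) := (hW i).union isClosed_closure.isOpen_compl
    have hd : Dense (W i ∪ (closure V)ᶜ) := by
      rw [dense_iff_inter_open]
      intro O hO hne
      by_cases hOV : (O ∩ V).Nonempty
      · obtain ⟨g, hgO, hgV⟩ := hOV
        have hgc : g ∈ closure (⋂ i, W i) := interior_subset hgV
        rw [mem_closure_iff] at hgc
        obtain ⟨g', hg'O, hg'⟩ := hgc O hO hgO
        exact ⟨g', hg'O, Or.inl (mem_iInter.1 hg' i)⟩
      · obtain ⟨g, hg⟩ := hne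
        refine ⟨g, hg, Or.inr ?_⟩
        intro hcl
        rw [mem_closure_iff] at hcl
        exact hOV (hcl O hO hg)
    filter_upwards [residual_of_dense_open ho hd] with g hg hgV
    rcases hg with h | h
    · exact h
    · exact absurd (subset_closure hgV) h
  filter_upwards [eventually_countable_forall.2 key] with g hg hgV i
  exact hg i hgV

/-- outside the interior of the closure a set is nowhere dense -/
theorem generic_not (O : Set M) :
    ∀ᶠ g in residual M, g ∉ interior (closure O) → g ∉ O := by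
  have ho : IsOpen ((closure O)ᶜ ∪ interior (closure O)) := isClosed_closure.isOpen_compl.union isOpen_interior
  have hd : Dense ((closure O)ᶜ ∪ interior (closure O)) := by
    rw [dense_iff_inter_open]
    intro W hW hne
    by_cases h : W ⊆ closure O
    · obtain ⟨g, hg⟩ := hne
      exact ⟨g, hg, Or.inr (interior_maximal h hW hg)⟩
    · obtain ⟨g, hg, hg2⟩ := not_subset.1 h
      exact ⟨g, hg, Or.inl hg2⟩
  filter_upwards [residual_of_dense_open ho hd] with g hg hg1 hg2
  rcases hg with h | h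
  · exact h (subset_closure hg2)
  · exact hg1 h

/-- **Alternative.** There are disjoint open sets with dense union: no oscillation at the generic parameter of the first,
locally uniform oscillation at the generic parameters of the second, for a countable family of functions. -/
theorem alternative {ι : Type} [Countable ι] (B : ι → ℝ → M → ℝ) (hB : ∀ i, Nice (B i)) :
    ∃ U₁ U₂ : Set M, IsOpen U₁ ∧ IsOpen U₂ ∧ Disjoint U₁ U₂ ∧ Dense (U₁ ∪ U₂) ∧
      (∀ᶠ g in residual M, g ∈ U₁ → ∀ i, ∀ c c' : ℝ, c < c' → ¬ Osc (fun T => B i T g) c c') ∧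
      ∀ g ∈ U₂, ∃ (i : ι) (c c' : ℝ), c < c' ∧ ∃ V ∈ 𝓝 g, ∀ᶠ g' in residual M, g' ∈ V →
        Osc (fun T => B i T g') c c' := by
  set O : ι × ℚ × ℚ → Set M := fun p => if p.2.1 < p.2.2 then {g | Osc (fun T => B p.1 T g) p.2.1 p.2.2} else ∅
    with hO
  have hgen : ∀ p : ι × ℚ × ℚ, ∀ᶠ g in residual M, g ∈ interior (closure (O p)) → g ∈ O p := by
    intro p
    by_cases hp : p.2.1 < p.2.2
    · have hOp : O p = ⋂ n : ℕ, ({g | ∃ T, ((n : ℝ) + 1) ≤ T ∧ B p.1 T g ∈ Iio ((p.2.1 : ℚ) : ℝ)} ∩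
          {g | ∃ T, ((n : ℝ) + 1) ≤ T ∧ B p.1 T g ∈ Ioi ((p.2.2 : ℚ) : ℝ)}) := by
        rw [hO]
        simp only [hp, if_true]
        exact osc_eq (B p.1) _ _
      have h1 := generic_of_gdelta (fun n : ℕ => ({g | ∃ T, ((n : ℝ) + 1) ≤ T ∧ B p.1 T g ∈ Iio ((p.2.1 : ℚ) : ℝ)} ∩
          {g | ∃ T, ((n : ℝ) + 1) ≤ T ∧ B p.1 T g ∈ Ioi ((p.2.2 : ℚ) : ℝ)}))
        (fun n => (nice_open (hB p.1) isOpen_Iio (by positivity)).inter
          (nice_open (hB p.1) isOpen_Ioi (by positivity)))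
      rw [← hOp] at h1
      filter_upwards [h1] with g hg hgi
      rw [hOp]
      exact mem_iInter.2 (hg hgi)
    · have hOp : O p = ∅ := by
        rw [hO]
        simp only [hp, if_false]
      rw [hOp]
      simp
  set U₂ : Set M := ⋃ p, interior (closure (O p)) with hU₂
  have hU₂o : IsOpen U₂ := isOpen_iUnion fun _ => isOpen_interior
  refine ⟨(closure U₂)ᶜ, U₂, isClosed_closure.isOpen_compl, hU₂o, ?_, ?_, ?_, ?_⟩
  · exact (disjoint_compl_left.mono_right subset_closure)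
  · rw [dense_iff_inter_open]
    intro W hW hne
    by_cases h : (W ∩ U₂).Nonempty
    · obtain ⟨g, h1, h2⟩ := h
      exact ⟨g, h1, Or.inr h2⟩
    · obtain ⟨g, hg⟩ := hne
      refine ⟨g, hg, Or.inl fun hc => ?_⟩
      rw [mem_closure_iff] at hc
      exact h (hc W hW hg)
  · filter_upwards [eventually_countable_forall.2 fun p => generic_not (O p)] with g hg hgU i c c' hcc hosc
    obtain ⟨q, hq1, hq2⟩ := exists_rat_btwn hcc
    obtain ⟨q', hq'1, hq'2⟩ := exists_rat_btwn hq2
    have hq : q < q' := by exact_mod_cast hq'1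
    refine hg (i, q, q') (fun h => hgU (subset_closure (mem_iUnion.2 ⟨_, h⟩))) ?_
    rw [hO]
    simp only [hq, if_true, mem_ofPred_eq]
    exact ⟨hosc.1.mono fun T hT => hT.trans hq1, hosc.2.mono fun T hT => hq'2.trans hT⟩
  · intro g hg
    obtain ⟨p, hp⟩ := mem_iUnion.1 hg
    have hlt : p.2.1 < p.2.2 := by
      by_contra hcon
      have hOp : O p = ∅ := by
        rw [hO]
        simp only [hcon, if_false]
      rw [hOp] at hp
      simp at hp
    refine ⟨p.1, p.2.1, p.2.2, by exact_mod_cast hlt, interior (closure (O p)), isOpen_interior.mem_nhds hp, ?_⟩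
    filter_upwards [hgen p] with g' hg' h
    have := hg' h
    rw [hO] at this
    simpa only [hlt, if_true, mem_ofPred_eq] using this

/-- no oscillation: convergence in the extended reals -/
theorem tendsto_ereal {B : ℝ → ℝ} (h : ∀ c c' : ℝ, c < c' → ¬ Osc B c c') :
    ∃ l : EReal, Tendsto (fun T => (B T : EReal)) atTop (𝓝 l) := by
  apply tendsto_of_no_upcrossings (s := Set.univ) dense_univ
  rintro a - b - hab ⟨h1, h2⟩
  obtain ⟨c, hc1, hc2⟩ := EReal.lt_iff_exists_real_btwn.1 hab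
  obtain ⟨c', hc'1, hc'2⟩ := EReal.lt_iff_exists_real_btwn.1 hc2
  have hcc : c < c' := by exact_mod_cast hc'1
  refine h c c' hcc ⟨h1.mono fun T hT => ?_, h2.mono fun T hT => ?_⟩
  · have : ((B T : ℝ) : EReal) < (c : EReal) := lt_trans hT hc1
    exact_mod_cast this
  · have : (c' : EReal) < ((B T : ℝ) : EReal) := lt_trans hc'2 hT
    exact_mod_cast this

/-- no oscillation and bounded: convergence -/
theorem tendsto_real {B : ℝ → ℝ} (h : ∀ c c' : ℝ, c < c' → ¬ Osc B c c') {C : ℝ}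
    (hC : ∀ᶠ T in atTop, |B T| ≤ C) : ∃ l : ℝ, Tendsto B atTop (𝓝 l) := by
  have hb1 : IsBoundedUnder (fun x1 x2 : ℝ => x1 ≤ x2) atTop B := ⟨C, by
    rw [eventually_map]
    filter_upwards [hC] with T hT using (abs_le.1 hT).2⟩
  have hb2 : IsBoundedUnder (fun x1 x2 : ℝ => x1 ≥ x2) atTop B := ⟨-C, by
    rw [eventually_map]
    filter_upwards [hC] with T hT using (abs_le.1 hT).1⟩
  exact tendsto_of_no_upcrossings (s := Set.univ) dense_univ
    (fun a _ b _ hab ⟨h1, h2⟩ => h a b hab ⟨h1, h2⟩) hb1 hb2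

/-- **Generic convergence is locally uniform.** -/
theorem cauchy_iff_generic [BaireSpace M] {B : ℝ → M → ℝ} (hB : Nice B) :
    (∀ᶠ g in residual M, ∃ l : ℝ, Tendsto (fun T => B T g) atTop (𝓝 l)) ↔
      ∀ ε : ℝ, 0 < ε → ∀ U : Set M, IsOpen U → U.Nonempty → ∃ V : Set M, IsOpen V ∧ V.Nonempty ∧ V ⊆ U ∧
        ∃ c T0 : ℝ, ∀ g ∈ V, ∀ T, T0 ≤ T → |B T g - c| ≤ ε := by
  constructor
  · intro h ε hε U hU hne
    by_contra hno
    push Not at hno
    -- each closed set has empty interior in U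
    have key : ∀ p : ℕ × ℚ, ∀ᶠ g in residual M, g ∈ U → g ∉ Pool.Agent.Q205.Baire.F B (p.2 : ℝ) ε ((p.1 : ℝ) + 1) := by
      intro p
      set Fn := Pool.Agent.Q205.Baire.F B (p.2 : ℝ) ε ((p.1 : ℝ) + 1) with hFn
      have hcl : IsClosed Fn := isClosed_F hB _ ε (by positivity)
      have ho : IsOpen (Fnᶜ ∪ (closure U)ᶜ) := hcl.isOpen_compl.union isClosed_closure.isOpen_compl
      have hd : Dense (Fnᶜ ∪ (closure U)ᶜ) := by
        rw [dense_iff_inter_open]
        intro W hW hWne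
        by_cases hWU : (W ∩ U).Nonempty
        · obtain ⟨g, hg, T, hT, hdev⟩ := hno (W ∩ U) (hW.inter hU) hWU inter_subset_right (p.2 : ℝ) ((p.1 : ℝ) + 1)
          exact ⟨g, hg.1, Or.inl fun hF => absurd (hF T hT) (not_le.2 hdev)⟩
        · obtain ⟨g, hg⟩ := hWne
          refine ⟨g, hg, Or.inr fun hcl' => ?_⟩
          rw [mem_closure_iff] at hcl'
          exact hWU (hcl' W hW hg)
      filter_upwards [residual_of_dense_open ho hd] with g hg hgU hgF
      rcases hg with h | h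
      · exact h hgF
      · exact h (subset_closure hgU)
    have hboth := h.and (eventually_countable_forall.2 key)
    obtain ⟨g, hgU, ⟨l, hl⟩, hg2⟩ := (dense_of_mem_residual hboth).inter_open_nonempty U hU hne
    obtain ⟨q, hq1, hq2⟩ := exists_rat_btwn (show l - ε / 2 < l + ε / 2 by linarith)
    have h1 : ∀ᶠ T in atTop, |B T g - l| < ε / 2 := by
      have := (Metric.tendsto_nhds.1 hl) (ε / 2) (by positivity)
      simpa [Real.dist_eq] using this
    obtain ⟨T1, hT1⟩ := eventually_atTop.1 h1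
    obtain ⟨n, hn⟩ := exists_nat_ge T1
    refine hg2 (n, q) hgU fun T hT => ?_
    simp only at hT ⊢
    have h2 := hT1 T (by linarith)
    rw [abs_lt] at h2
    rw [abs_le]
    constructor <;> linarith [h2.1, h2.2]
  · intro h
    have key : ∀ n : ℕ, ∀ᶠ g in residual M, ∃ c T0 : ℝ, ∀ T, T0 ≤ T → |B T g - c| ≤ 1 / ((n : ℝ) + 1) := by
      intro n
      have hpos : (0 : ℝ) < 1 / ((n : ℝ) + 1) := by positivity
      set O : Set M := ⋃₀ {V | IsOpen V ∧ ∃ c T0 : ℝ, ∀ g ∈ V, ∀ T, T0 ≤ T → |B T g - c| ≤ 1 / ((n : ℝ) + 1)}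
        with hO
      have ho : IsOpen O := isOpen_sUnion fun V hV => hV.1
      have hd : Dense O := by
        rw [dense_iff_inter_open]
        intro U hU hne
        obtain ⟨V, hV, ⟨g, hg⟩, hVU, c, T0, hT0⟩ := h _ hpos U hU hne
        exact ⟨g, hVU hg, mem_sUnion.2 ⟨V, ⟨hV, c, T0, hT0⟩, hg⟩⟩
      filter_upwards [residual_of_dense_open ho hd] with g hg
      obtain ⟨V, ⟨-, c, T0, hV⟩, hgV⟩ := mem_sUnion.1 hg
      exact ⟨c, T0, hV g hgV⟩
    filter_upwards [eventually_countable_forall.2 key] with g hg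
    have hc : Cauchy (map (fun T => B T g) atTop) := by
      rw [Metric.cauchy_iff]
      refine ⟨inferInstance, fun ε hε => ?_⟩
      obtain ⟨n, hn⟩ := exists_nat_one_div_lt (show 0 < ε / 2 by positivity)
      obtain ⟨c, T0, hT⟩ := hg n
      refine ⟨(fun T => B T g) '' Ici T0, image_mem_map (Ici_mem_atTop T0), ?_⟩
      rintro _ ⟨T, hT1, rfl⟩ _ ⟨T', hT'1, rfl⟩
      have h1 := hT T hT1
      have h2 := hT T' hT'1
      simp only [Real.dist_eq]
      rw [abs_le] at h1 h2
      rw [abs_lt]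
      constructor <;> linarith [h1.1, h1.2, h2.1, h2.2]
    exact CompleteSpace.complete hc

end Pool.Agent.N250.SP
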