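import Pool.Agent.N250.SP.Osc
import Pool.Agent.Results.MP_a825e8_mp.SurfacesLimitStatistics

/-! The unfolded levels of conformal metrics on closed surfaces as a continuous family of spectra (helper250; the proof is
that of the starting file `SurfacesLimitStatistics`). -/

set_option autoImplicit false

open Set Filter Topology MeasureTheory
open scoped Real ContDiff
open Pool.Agent.Y262.QE

noncomputable section

namespace Pool.Agent.N250.SP

open Pool.Agent.Results.MP_a825e8_mp.SurfacesLimitStatistics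
open Pool.Agent.Q205.Baire (Spectra LocalStat S count)

/-- the statistics of the problem as local statistics -/
def statL : ∀ a : Option ℕ, LocalStat (Fin (dim a) → ℝ) := fun a =>
  match a with
  | none =>
    { ι := ℕ
      I := fun N => Finset.range N
      φ := fun k y => fun _ => y (k + 1) - y k
      cont := fun k => by fun_prop }
  | some n =>
    { ι := Fin (n + 2) → ℕ
      I := fun N => by
        classical
        exact (Fintype.piFinset (fun _ => Finset.range N)).filter (fun σ => Function.Injective σ)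
      φ := fun σ y => fun j => y (σ j.succ) - y (σ 0)
      cont := fun σ => by fun_prop }

theorem S_stat {F : Type} [TopologicalSpace F] (X : Spectra F) (a : Option ℕ) (f : (Fin (dim a) → ℝ) → ℝ) (T : ℝ)
    (φ : F) : S X (statL a) f T φ = statistic a f T (fun k => X.x k φ) := by
  rcases a with _ | n
  · rfl
  · rfl

theorem exists_spectra (M : Type) [MetricSpace M] [CompactSpace M] [MeasurableSpace M] [BorelSpace M]
    [Nonempty M] (μ : Measure M) (D : Data M) (hD : D.IsSurf μ)
    (F : Type) [TopologicalSpace F] (ι : F → C(M, ℝ)) (hι : Continuous ι)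
    (x : F → ℕ → ℝ) (hx : ∀ φ, IsUnfolded D μ (ι φ) (x φ)) :
    ∃ X : Spectra F, (∀ φ, (fun k => X.x k φ) = x φ) ∧
      ∀ φ, Tendsto (fun T : ℝ => (number T (x φ) : ℝ) / T) atTop (𝓝 1) := by
  obtain ⟨hf, -⟩ := tFin M μ D hD
  haveI := hf
  obtain ⟨i, a, hSf, hi, ha⟩ := Pool.Agent.Y264.QR.tPackF M μ D hD inferInstance
  obtain ⟨b, hB, hF, hA, hexp, -⟩ := Pool.Agent.Y264.QR.tFm M μ (Pool.Agent.Y264.QR.HF D μ) i a hSf
  have hW := Pool.Agent.Y264.QR.tWl M μ D hD inferInstance i a b hSf hi ha hB
  haveI : CompleteSpace (Pool.Agent.Y264.QR.HF D μ) :=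
    (Submodule.isClosed_topologicalClosure _).completeSpace_coe
  have harea : ∀ φ : C(M, ℝ), (area μ φ).real univ = ∫ x, Real.exp (φ x) ∂μ := by
    intro φ
    have hm : Measurable fun x => Real.exp (φ x) :=
      (Real.continuous_exp.comp φ.continuous).measurable
    have h5 : (area μ φ).real univ = ∫ x, (1 : ℝ) ∂(wm μ fun x => Real.exp (φ x)) := by
      simp [area]
    rw [h5, integral_wm μ _ hm fun x => (Real.exp_pos _).le]
    simp
  have hxX : x = fun φ k => (Pool.Agent.Q205.Baire.spectra μ a b hF hA hexp hW ι hι).x k φ := by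
    funext φ k
    obtain ⟨u, lam, hu, hxk⟩ := hx φ
    obtain ⟨e, he1, he2⟩ := Pool.Agent.Y264.QR.tBr M μ D hD i a b hSf hi ha hB hF (ι φ) u lam
      ⟨hu.eig, hu.mono, hu.orth, hu.total⟩
    have hmm : Ev a (b (ι φ)) k = lam k :=
      Pool.Agent.Y592.QE.mm _ a (b (ι φ)) (hF (ι φ)) e lam he2 k
    rw [hxk, harea]
    show _ = (∫ x, Real.exp (ι φ x) ∂μ) / (4 * π) * Ev a (b (ι φ)) k
    rw [hmm]
  refine ⟨Pool.Agent.Q205.Baire.spectra μ a b hF hA hexp hW ι hι, fun φ => ?_, fun φ => ?_⟩
  · rw [hxX]
  · rw [hxX]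
    exact Pool.Agent.Q205.Baire.count_div (Pool.Agent.Q205.Baire.spectra μ a b hF hA hexp hW ι hι) φ
      (Pool.Agent.Q205.Baire.unf_div μ a b hA hW (ι φ))

end Pool.Agent.N250.SP
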